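import Pool.Agent.helper82.RL.Tel
import Pool.Agent.helper14.EX1.CheN

/-!
# RL: the root lemma, upper bound

For EVERY integer root `x`: the mass of the words whose prefixes of length at least `i0` have typical sums, whose prefixes are not too
low (`3 ^ j ≤ M 2 ^ sum`), and whose end is in the strip `[X, 2 X)`, is at most `C M (i0 + 1) ^ 2`.
-/

namespace Pool.Agent.helper82.RL

open Finset Pool.Agent.helper14.EX1 Pool.Agent.helper49.PDR

/-- The prefixes of length at least `i0` have typical sums. -/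
def Gdw (i0 : ℕ) (v : List ℕ) : Prop :=
  ∀ i, i0 ≤ i → i ≤ v.length → 39 * i ≤ 20 * (v.take i).sum ∧ 20 * (v.take i).sum ≤ 41 * i

/-- No prefix is low. -/
def Nlo (M : ℝ) (v : List ℕ) : Prop :=
  ∀ j, j ≤ v.length → (3 : ℝ) ^ j ≤ M * 2 ^ (v.take j).sum

theorem strip_uniq {X : ℝ} {l A B : ℕ} (hA : strip X l A) (hB : strip X l B) : A = B := by
  have key : ∀ {A B : ℕ}, strip X l A → strip X l B → ¬ A < B := by
    intro A B hA hB h
    have h1 : (2 : ℝ) ^ (A + 1) ≤ 2 ^ B := pow_le_pow_right₀ (by norm_num) h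
    rw [pow_succ] at h1
    have h2 := hA.1
    have h3 := hB.2
    nlinarith
  exact le_antisymm (not_lt.1 (key hB hA)) (not_lt.1 (key hA hB))

open Classical in
theorem low_level {K l : ℕ} {M X : ℝ} (hM : 1 ≤ M) (x : ℤ) :
    ∑ v ∈ lw K l, (if Nlo M v ∧ Ala x v ∧ strip X l v.sum then ww v else 0) ≤ 2 * (M * l) + M := by
  have hM0 : 0 ≤ M := by linarith
  rw [← sum_filter]
  obtain ⟨G, hG⟩ : ∃ G, G = (lw K l).filter (fun v => Nlo M v ∧ Ala x v ∧ strip X l v.sum) := ⟨_, rfl⟩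
  rw [← hG]
  have hmem : ∀ v ∈ G, (v.length = l ∧ ∀ k ∈ v, 1 ≤ k) ∧ Nlo M v ∧ Ala x v ∧ strip X l v.sum := by
    intro v hv
    rw [hG, mem_filter, mem_lw] at hv
    exact ⟨⟨hv.1.1, fun k hk => (hv.1.2 k hk).1⟩, hv.2⟩
  rcases G.eq_empty_or_nonempty with h0 | ⟨v0, hv0⟩
  · rw [h0, sum_empty]
    positivity
  obtain ⟨A, hA⟩ : ∃ A, A = v0.sum := ⟨_, rfl⟩
  have hsum : ∀ v ∈ G, v.sum = A := by
    intro v hv
    rw [hA]
    exact strip_uniq (hmem v hv).2.2.2 (hmem v0 hv0).2.2.2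
  have hlow : (3 : ℝ) ^ l ≤ M * 2 ^ A := by
    have h1 := (hmem v0 hv0).2.1 v0.length le_rfl
    rwa [List.take_length, (hmem v0 hv0).1.1, ← hA] at h1
  have hp3 : (0 : ℝ) < 3 ^ l := by positivity
  have hp2 : (0 : ℝ) < 2 ^ A := by positivity
  have hgw : ∀ v ∈ G, |(Gw v : ℝ)| ≤ M * l * 2 ^ A := by
    intro v hv
    obtain ⟨⟨h1, h2⟩, h3, h4, h5⟩ := hmem v hv
    have h6 := gw_sum_bound h2
    rw [hsum v hv, h1] at h6
    refine h6.trans (mul_le_mul_of_nonneg_right ?_ hp2.le)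
    have h7 : ∀ j ∈ range l, (3 : ℝ) ^ j / 2 ^ (v.take j).sum ≤ M := by
      intro j hj
      rw [div_le_iff₀ (by positivity)]
      exact h3 j (by rw [h1]; exact (mem_range.1 hj).le)
    refine (sum_le_sum h7).trans (le_of_eq ?_)
    rw [sum_const, card_range, nsmul_eq_mul]
    ring
  have hinj : Set.InjOn (fun v : List ℕ => nd x v) (G : Set (List ℕ)) := by
    intro v hv w hw hvw
    obtain ⟨⟨h1, h2⟩, h3, h4, h5⟩ := hmem v (mem_coe.1 hv)
    obtain ⟨⟨g1, g2⟩, g3, g4, g5⟩ := hmem w (mem_coe.1 hw)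
    exact nd_inj (h1.trans g1.symm) h2 g2 h4 g4 hvw
  have hcard : (G.card : ℝ) ≤ 2 * (M * l * (2 ^ A / 3 ^ l)) + 1 := by
    rw [← card_image_of_injOn hinj]
    obtain ⟨c, hc⟩ : ∃ c : ℝ, c = (2 : ℝ) ^ A * x / 3 ^ l := ⟨_, rfl⟩
    obtain ⟨d, hd⟩ : ∃ d : ℝ, d = M * l * (2 ^ A / 3 ^ l) := ⟨_, rfl⟩
    have hd0 : 0 ≤ d := by rw [hd]; positivity
    have h2 : ∀ a ∈ G.image (fun v : List ℕ => nd x v), c - d ≤ (a : ℝ) ∧ (a : ℝ) ≤ c + d := by
      intro a ha
      rw [mem_image] at ha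
      obtain ⟨v, hv, rfl⟩ := ha
      obtain ⟨⟨h1, h2⟩, h3, h4, h5⟩ := hmem v hv
      have h6 := nd_eq h4
      rw [h1, hsum v hv] at h6
      have h7 : (3 : ℝ) ^ l * (nd x v : ℝ) = 2 ^ A * x + (Gw v : ℝ) := by exact_mod_cast h6
      have h8 : (nd x v : ℝ) = c + (Gw v : ℝ) / 3 ^ l := by
        rw [hc, ← add_div, eq_div_iff hp3.ne']
        linear_combination h7
      have h9 := abs_le.1 (hgw v hv)
      have h10 : d = M * l * 2 ^ A / 3 ^ l := by rw [hd]; ring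
      rw [h8, h10]
      constructor
      · have := div_le_div_of_nonneg_right h9.1 hp3.le
        rw [neg_div] at this
        linarith
      · have := div_le_div_of_nonneg_right h9.2 hp3.le
        linarith
    have h3 := Pool.Agent.helper4.PDM.card_int_le (by linarith) h2
    rw [← hd]
    linarith
  have hw : ∀ v ∈ G, ww v = 3 ^ l / 2 ^ A := by
    intro v hv
    unfold ww
    rw [(hmem v hv).1.1, hsum v hv]
  rw [sum_congr rfl hw, sum_const, nsmul_eq_mul]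
  have h1 : (0 : ℝ) ≤ 3 ^ l / 2 ^ A := by positivity
  refine (mul_le_mul_of_nonneg_right hcard h1).trans ?_
  have h2 : (2 * (M * l * (2 ^ A / 3 ^ l)) + 1) * ((3 : ℝ) ^ l / 2 ^ A) =
      2 * (M * l) + 3 ^ l / 2 ^ A := by
    field_simp
  rw [h2]
  have h3 : (3 : ℝ) ^ l / 2 ^ A ≤ M := by
    rw [div_le_iff₀ hp2]
    exact hlow
  linarith

/-- The rule. -/
theorem rule : ∃ (C ρ : ℝ) (R : Rule C ρ), 0 ≤ C ∧ 0 < ρ ∧ ρ < 1 ∧
    ∀ w, R.Q w ↔ 39 * w.length ≤ 20 * w.sum ∧ 20 * w.sum ≤ 41 * w.length := by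
  obtain ⟨ρ, C, hρ, hρ1, hC, H⟩ := cheN (e := 1 / 20) (by norm_num)
  refine ⟨C, ρ, ⟨fun w => 39 * w.length ≤ 20 * w.sum ∧ 20 * w.sum ≤ 41 * w.length,
    fun w => ¬ (39 * w.length ≤ 20 * w.sum ∧ 20 * w.sum ≤ 41 * w.length), ?_, ?_, ?_, ?_, ?_⟩,
    hC, hρ, hρ1, fun w => Iff.rfl⟩
  · simp
  · exact fun w h => h.1
  · intro w h
    have := h.2
    omega
  · intro u v hu huv hv
    apply huv
    rw [List.length_append, List.sum_append]
    constructor
    · have h1 := hu.1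
      have h2 := hv.1
      omega
    · have h1 := hu.2
      have h2 := hv.2
      omega
  · intro K i
    refine le_trans (le_of_eq ?_) (H K i)
    refine sum_congr rfl fun v hv => ?_
    have hl := (mem_lw.1 hv).1
    have e : (¬ (39 * v.length ≤ 20 * v.sum ∧ 20 * v.sum ≤ 41 * v.length)) ↔
        1 / 20 * (i : ℝ) < |(v.sum : ℝ) - 2 * i| := by
      rw [hl, lt_abs]
      constructor
      · intro h
        rw [not_and_or] at h
        rcases h with h | h
        · right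
          have h1 : 20 * v.sum < 39 * i := by omega
          have h2 : (20 : ℝ) * v.sum < 39 * i := by exact_mod_cast h1
          linarith
        · left
          have h1 : 41 * i < 20 * v.sum := by omega
          have h2 : (41 : ℝ) * i < 20 * v.sum := by exact_mod_cast h1
          linarith
      · rintro (h | h) ⟨g1, g2⟩
        · have h2 : (20 : ℝ) * v.sum ≤ 41 * i := by exact_mod_cast g2
          linarith
        · have h2 : (39 : ℝ) * i ≤ 20 * v.sum := by exact_mod_cast g1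
          linarith
    by_cases h : ¬ (39 * v.length ≤ 20 * v.sum ∧ 20 * v.sum ≤ 41 * v.length)
    · rw [if_pos h, if_pos (e.1 h)]
    · rw [if_neg h, if_neg (fun h' => h (e.2 h'))]

open Classical in
/-- **The root lemma (upper bound)**. -/
theorem rl : ∃ C : ℝ, 0 ≤ C ∧ ∀ (i0 K r : ℕ) (M X : ℝ) (x : ℤ), 1 ≤ M → 0 < X →
    ∑ l ∈ range (r + 1), ∑ v ∈ lw K l,
      (if Gdw i0 v ∧ Nlo M v ∧ Ala x v ∧ strip X l v.sum then ww v else 0) ≤
      C * M * (i0 + 1) ^ 2 := by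
  obtain ⟨C, ρ, R, hC, hρ, hρ1, hR⟩ := rule
  obtain ⟨D, hD, H⟩ := tel_up hC hρ hρ1
  refine ⟨30000 + 1111 * D, by positivity, ?_⟩
  intro i0 K r M X x hM hX
  have hM0 : 0 ≤ M := by linarith
  obtain ⟨f, hf⟩ : ∃ f : ℕ → ℝ, f = fun l => ∑ v ∈ lw K l,
      (if Gdw i0 v ∧ Nlo M v ∧ Ala x v ∧ strip X l v.sum then ww v else 0) := ⟨_, rfl⟩
  have hf0 : ∀ l, 0 ≤ f l := by
    intro l
    rw [hf]
    refine sum_nonneg fun v _ => ?_
    split_ifs
    · exact (ww_pos v).le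
    · exact le_rfl
  have e0 : ∑ l ∈ range (r + 1), ∑ v ∈ lw K l,
      (if Gdw i0 v ∧ Nlo M v ∧ Ala x v ∧ strip X l v.sum then ww v else 0) =
      ∑ l ∈ range (r + 1), f l := by rw [hf]
  rw [e0]
  obtain ⟨l1, hl1⟩ : ∃ l1, l1 = 100 + 2 * i0 := ⟨_, rfl⟩
  have e1 : ∑ l ∈ range (r + 1), f l ≤ ∑ l ∈ range (l1 + (r + 1)), f l := by
    refine sum_le_sum_of_subset_of_nonneg ?_ fun l _ _ => hf0 l
    intro l hl
    rw [mem_range] at hl ⊢
    omega
  rw [sum_range_add f l1 (r + 1)] at e1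
  -- the low levels
  have e2 : ∑ l ∈ range l1, f l ≤ l1 * (2 * (M * l1) + M) := by
    have h1 : ∀ l ∈ range l1, f l ≤ 2 * (M * l1) + M := by
      intro l hl
      have h2 : (l : ℝ) ≤ l1 := by exact_mod_cast (mem_range.1 hl).le
      have h3 := low_level (K := K) (l := l) (X := X) hM x
      have h4 : f l ≤ ∑ v ∈ lw K l, (if Nlo M v ∧ Ala x v ∧ strip X l v.sum then ww v else 0) := by
        rw [hf]
        refine sum_le_sum fun v _ => ?_
        by_cases h : Gdw i0 v ∧ Nlo M v ∧ Ala x v ∧ strip X l v.sum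
        · rw [if_pos h, if_pos h.2]
        · rw [if_neg h]
          split_ifs
          · exact (ww_pos v).le
          · exact le_rfl
      have h5 : M * (l : ℝ) ≤ M * l1 := mul_le_mul_of_nonneg_left h2 hM0
      linarith
    refine (sum_le_sum h1).trans (le_of_eq ?_)
    rw [sum_const, card_range, nsmul_eq_mul]
  -- the high levels
  obtain ⟨P, hP⟩ : ∃ P : List ℕ → Prop, P = fun w => ∀ j, j ≤ i0 → (3 : ℝ) ^ j ≤ M * 2 ^ (w.take j).sum :=
    ⟨_, rfl⟩
  have hLow : Low i0 P (M * i0) := by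
    refine ⟨by positivity, fun w _ hw => ?_⟩
    rw [hP] at hw
    have h7 : ∀ j ∈ range i0, (3 : ℝ) ^ j / 2 ^ (w.take j).sum ≤ M := by
      intro j hj
      rw [div_le_iff₀ (by positivity)]
      have h8 := hw j (mem_range.1 hj).le
      rwa [List.take_take, min_eq_left (mem_range.1 hj).le] at h8
    refine (sum_le_sum h7).trans (le_of_eq ?_)
    rw [sum_const, card_range, nsmul_eq_mul]
    ring
  have e3 : ∑ j ∈ range (r + 1), f (l1 + j) ≤ (2 * (M * i0) + 11) * (D * (l1 + 1)) := by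
    refine le_trans (sum_le_sum fun j _ => ?_) (H R i0 K P (M * i0) X x hLow hX r l1 (by omega) (by omega))
    rw [hf]
    show ∑ v ∈ lw K (l1 + j), (if Gdw i0 v ∧ Nlo M v ∧ Ala x v ∧ strip X (l1 + j) v.sum then ww v else 0) ≤ _
    unfold GH
    rw [sum_filter]
    refine sum_le_sum fun v hv => ?_
    have hl := (mem_lw.1 hv).1
    by_cases h : Gdw i0 v ∧ Nlo M v ∧ Ala x v ∧ strip X (l1 + j) v.sum
    · rw [if_pos h, if_pos, if_pos h.2.2]
      constructor
      · intro i hi hi2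
        rw [hR]
        have h1 := h.1 i hi hi2
        have h2 : (v.take i).length = i := by
          rw [List.length_take]
          omega
        rw [h2]
        exact h1
      · rw [hP]
        intro j' hj'
        have h1 := h.2.1 j' (by omega)
        rwa [List.take_take, min_eq_left hj']
    · rw [if_neg h]
      split_ifs
      · exact (ww_pos v).le
      · exact le_rfl
      · exact le_rfl
  have hi : (0 : ℝ) ≤ i0 := Nat.cast_nonneg i0
  have hl1r : (l1 : ℝ) = 100 + 2 * i0 := by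
    rw [hl1]
    push_cast
    ring
  have e4 : (l1 : ℝ) * (2 * (M * l1) + M) ≤ 30000 * M * (i0 + 1) ^ 2 := by
    have h1 : (l1 : ℝ) ≤ 100 * (i0 + 1) := by
      rw [hl1r]
      linarith
    have h2 : (1 : ℝ) ≤ l1 := by
      rw [hl1r]
      linarith
    have h3 : (l1 : ℝ) * (2 * (M * l1) + M) ≤ 3 * M * l1 ^ 2 := by nlinarith [mul_nonneg hM0 (by linarith : (0:ℝ) ≤ (l1:ℝ))]
    have h4 : (l1 : ℝ) ^ 2 ≤ (100 * (i0 + 1)) ^ 2 := pow_le_pow_left₀ (by linarith) h1 2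
    have h5 := mul_le_mul_of_nonneg_left h4 (by positivity : 0 ≤ 3 * M)
    have h6 : 3 * M * (100 * ((i0 : ℝ) + 1)) ^ 2 = 30000 * M * (i0 + 1) ^ 2 := by ring
    linarith
  have e5 : (2 * (M * i0) + 11) * (D * ((l1 : ℝ) + 1)) ≤ 1111 * D * M * (i0 + 1) ^ 2 := by
    have h1 : (l1 : ℝ) + 1 ≤ 101 * (i0 + 1) := by
      rw [hl1r]
      linarith
    have h2 : 2 * (M * i0) + 11 ≤ 11 * M * (i0 + 1) := by
      have := mul_nonneg hM0 hi
      nlinarith
    have h3 : D * ((l1 : ℝ) + 1) ≤ D * (101 * (i0 + 1)) := mul_le_mul_of_nonneg_left h1 hD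
    have h4 : (0 : ℝ) ≤ D * ((l1 : ℝ) + 1) := by
      have : (0 : ℝ) ≤ l1 := Nat.cast_nonneg l1
      positivity
    calc (2 * (M * i0) + 11) * (D * ((l1 : ℝ) + 1)) ≤ (11 * M * (i0 + 1)) * (D * (101 * (i0 + 1))) :=
          mul_le_mul h2 h3 h4 (by positivity)
      _ = 1111 * D * M * (i0 + 1) ^ 2 := by ring
  have e6 : (30000 + 1111 * D) * M * ((i0 : ℝ) + 1) ^ 2 =
      30000 * M * (i0 + 1) ^ 2 + 1111 * D * M * (i0 + 1) ^ 2 := by ring
  rw [e6]
  linarith

end Pool.Agent.helper82.RL
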