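import Pool.Agent.helper49.PDR.Vie

/-!
# RL-Cls: the class bound for good words whose beginning is not too low

As `PDR/ClsG`, `Vio`, `Vie`, but for the words `w` with `P (w.take i0)`, where `P` implies
`∑ j < i0, 3 ^ j / 2 ^ (w.take j).sum ≤ F`; the constant `32 * 2 ^ i0` is replaced by `2 F + 11`.
-/

namespace Pool.Agent.helper82.RL

open Finset Pool.Agent.helper14.EX1 Pool.Agent.helper49.PDR

/-- The hypothesis on `P`. -/
def Low (i0 : ℕ) (P : List ℕ → Prop) (F : ℝ) : Prop :=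
  0 ≤ F ∧ ∀ w : List ℕ, (∀ b ∈ w, 1 ≤ b) → P (w.take i0) →
    ∑ j ∈ range i0, (3 : ℝ) ^ j / 2 ^ (w.take j).sum ≤ F

theorem gw_low {C ρ : ℝ} (R : Rule C ρ) {i0 : ℕ} {P : List ℕ → Prop} {F : ℝ} (hP : Low i0 P F)
    {w : List ℕ} (h1 : ∀ k ∈ w, 1 ≤ k) (h : Good R i0 w) (hw : P (w.take i0)) :
    |(Gw w : ℝ)| ≤ (F + 50 / 11) * 2 ^ w.sum := by
  refine (gw_sum_bound h1).trans (mul_le_mul_of_nonneg_right ?_ (by positivity))
  have h2 : ∀ j ∈ range w.length, (3 : ℝ) ^ j / 2 ^ (w.take j).sum ≤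
      (if j < i0 then (3 : ℝ) ^ j / 2 ^ (w.take j).sum else 0) + (39 / 50) ^ j := by
    intro j hj
    have hj1 : j < w.length := mem_range.1 hj
    have hl : (w.take j).length = j := by rw [List.length_take]; omega
    by_cases hi : j < i0
    · rw [if_pos hi]
      have h5 : (0 : ℝ) ≤ (39 / 50) ^ j := by positivity
      linarith
    · rw [if_neg hi, zero_add]
      refine Sb_term ?_
      have h3 := R.lo _ (h j (not_lt.1 hi) hj1.le)
      rwa [hl] at h3
  refine (sum_le_sum h2).trans ?_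
  rw [sum_add_distrib]
  have h3 : ∑ j ∈ range w.length, (if j < i0 then (3 : ℝ) ^ j / 2 ^ (w.take j).sum else 0) ≤
      ∑ j ∈ range i0, (3 : ℝ) ^ j / 2 ^ (w.take j).sum := by
    rw [← sum_filter]
    refine sum_le_sum_of_subset_of_nonneg ?_ fun j _ _ => by positivity
    intro j hj
    exact mem_range.2 (mem_filter.1 hj).2
  have h4 := hP.2 w h1 hw
  have h5 : ∑ j ∈ range w.length, (39 / 50 : ℝ) ^ j ≤ 50 / 11 := by
    rw [geom_sum_eq (by norm_num)]
    have : (0 : ℝ) ≤ (39 / 50) ^ w.length := by positivity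
    rw [div_le_iff_of_neg (by norm_num)]
    linarith
  linarith

theorem mem_GHs {C ρ : ℝ} {R : Rule C ρ} {i0 K n : ℕ} {P : List ℕ → Prop} {w : List ℕ} :
    w ∈ GH R i0 i0 P K n ↔
      (w.length = n ∧ ∀ k ∈ w, 1 ≤ k ∧ k ≤ K) ∧ Good R i0 w ∧ P (w.take i0) := by
  classical
  unfold GH
  rw [Finset.mem_filter, mem_lw]

theorem cls_rec {C ρ : ℝ} (R : Rule C ρ) {i0 K k m : ℕ} {P : List ℕ → Prop} {F : ℝ}
    (hP : Low i0 P F) (hi0 : i0 ≤ k) (hm : 5 * m ≤ k)
    {g : ℕ → ℤ → ℝ} (hg : ∀ A, Per m (g A)) (hn : ∀ A y, 0 ≤ g A y) (x : ℤ) :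
    ∑ u ∈ GH R i0 i0 P K k, (if Ala x u then ww u * g u.sum (nd x u) else 0) ≤
      (2 * F + 11) * ∑ A ∈ range (3 * k + 1), avg m (g A) := by
  have hmem : ∀ u ∈ GH R i0 i0 P K k, u.length = k ∧ (∀ b ∈ u, 1 ≤ b) ∧ Good R i0 u ∧ R.Q u ∧
      P (u.take i0) := by
    intro u hu
    obtain ⟨⟨h1, h2⟩, h3, h5⟩ := mem_GHs.1 hu
    refine ⟨h1, fun b hb => (h2 b hb).1, h3, ?_, h5⟩
    have h4 := h3 u.length (by omega) le_rfl
    rwa [List.take_length] at h4
  obtain ⟨I, hI⟩ : ∃ I : Finset ℕ, I = (range (3 * k + 1)).filter (fun A => 39 * k ≤ 20 * A) :=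
    ⟨_, rfl⟩
  have hF := hP.1
  have h1 := Pool.Agent.helper4.PDM.linf (G := GH R i0 i0 P K k) (k := k) (m := m)
    (fun v hv => ⟨(hmem v hv).1, (hmem v hv).2.1⟩) (S := F + 50 / 11) (by positivity)
    (fun v hv => gw_low R hP (hmem v hv).2.1 (hmem v hv).2.2.1 (hmem v hv).2.2.2.2) (I := I)
    (fun v hv => by
      obtain ⟨a1, -, -, a4, -⟩ := hmem v hv
      have a5 := R.lo v a4
      have a6 := R.hi v a4
      rw [hI, mem_filter, mem_range]
      rw [a1] at a5 a6
      exact ⟨by omega, a5⟩)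
    (fun A hA => by
      rw [hI, mem_filter] at hA
      have a1 := three_two hA.2 hm
      exact_mod_cast a1) hg hn x
  refine h1.trans ?_
  have h2 : ∀ A, 0 ≤ avg m (g A) := fun A => avg_nn (hn A)
  have h3 : ∑ A ∈ I, avg m (g A) ≤ ∑ A ∈ range (3 * k + 1), avg m (g A) := by
    rw [hI]
    exact sum_le_sum_of_subset_of_nonneg (filter_subset _ _) fun A _ _ => h2 A
  have h5 : 0 ≤ ∑ A ∈ I, avg m (g A) := sum_nonneg fun A _ => h2 A
  exact mul_le_mul (by linarith) h3 h5 (by positivity)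

open Classical in
theorem vio_one' {C ρ : ℝ} (hC : 0 ≤ C) (hρ : 0 ≤ ρ) (R : Rule C ρ) {i0 K k i r : ℕ}
    {P : List ℕ → Prop} {F : ℝ} (hP : Low i0 P F)
    (hi0 : i0 ≤ k) (hk : 5 * (r + i) ≤ k) (x : ℤ) :
    ∑ u ∈ GH R i0 i0 P K k, ∑ v ∈ lw K i, ∑ z ∈ lw K r,
      (if R.B v ∧ Ala x (u ++ v ++ z) then ww (u ++ v ++ z) else 0) ≤
      (2 * F + 11) * (3 * k + 1) * (C * ρ ^ i) := by
  have h1 : ∑ u ∈ GH R i0 i0 P K k, ∑ v ∈ lw K i, ∑ z ∈ lw K r,
      (if R.B v ∧ Ala x (u ++ v ++ z) then ww (u ++ v ++ z) else 0) =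
      ∑ u ∈ GH R i0 i0 P K k, (if Ala x u then ww u * Vio_g R K i r (nd x u) else 0) :=
    sum_congr rfl fun u _ => Vio_inner R K i r x u
  rw [h1]
  have h2 := cls_rec R (K := K) (m := r + i) hP hi0 hk (g := fun _ => Vio_g R K i r)
    (fun _ => Vio_per R K i r) (fun _ y => Vio_nn R K i r y) x
  refine h2.trans ?_
  rw [sum_const, card_range, nsmul_eq_mul]
  have h3 := Vio_avg R K i r
  have hF := hP.1
  have h4 : (0 : ℝ) ≤ (2 * F + 11) * (3 * k + 1) := by positivity
  calc (2 * F + 11) * (((3 * k + 1 : ℕ) : ℝ) * avg (r + i) (Vio_g R K i r)) =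
        (2 * F + 11) * (3 * k + 1) * avg (r + i) (Vio_g R K i r) := by
          push_cast
          ring
    _ ≤ (2 * F + 11) * (3 * k + 1) * (C * ρ ^ i) := mul_le_mul_of_nonneg_left h3 h4

open Classical in
theorem vio_ext' {C ρ : ℝ} (hC : 0 ≤ C) (hρ : 0 ≤ ρ) (hρ1 : ρ ≤ 1) (R : Rule C ρ)
    {i0 K k k1 n : ℕ} {P : List ℕ → Prop} {F : ℝ} (hP : Low i0 P F)
    (hi0 : i0 ≤ k) (hkk : k ≤ k1) (h5 : 5 * (k1 + n) ≤ 6 * k) (x : ℤ) :
    ∑ w ∈ (lw K (k1 + n)).filter
        (fun w => (Good R i0 (w.take k1) ∧ P (w.take i0)) ∧ ¬ Good R i0 w),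
      (if Ala x w then ww w else 0) ≤
      n * ((2 * F + 11) * (3 * k + 1) * (C * ρ ^ (k1 - k))) := by
  have hF := hP.1
  have hlen : ∀ w ∈ lw K (k1 + n), w.length = k1 + n := fun w hw => (mem_lw.1 hw).1
  have key : ∀ w ∈ lw K (k1 + n),
      (if (Good R i0 (w.take k1) ∧ P (w.take i0)) ∧ ¬ Good R i0 w then
        (if Ala x w then ww w else 0) else 0) ≤
        ∑ j ∈ Ioc k1 (k1 + n),
          (if (Good R i0 (w.take k) ∧ P (w.take i0)) ∧ R.B ((w.take j).drop k) ∧ Ala x w
            then ww w else 0) := by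
    intro w hw
    have hnn : ∀ j ∈ Ioc k1 (k1 + n),
        0 ≤ (if (Good R i0 (w.take k) ∧ P (w.take i0)) ∧ R.B ((w.take j).drop k) ∧ Ala x w
          then ww w else 0) := by
      intro j _
      split_ifs
      · exact (ww_pos w).le
      · exact le_rfl
    have hl := hlen w hw
    by_cases h : (Good R i0 (w.take k1) ∧ P (w.take i0)) ∧ ¬ Good R i0 w
    · rw [if_pos h]
      by_cases hA : Ala x w
      · rw [if_pos hA]
        obtain ⟨j, hj1, hj2, hj3, hj4⟩ := exists_bad h.1.1 (v := w.drop k1)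
          (by rw [List.take_append_drop]; exact h.2)
        rw [List.take_append_drop] at hj4
        rw [List.length_take, List.length_drop, hl] at hj2
        rw [List.length_take, hl] at hj1
        have hj : j ∈ Ioc k1 (k1 + n) := by
          rw [mem_Ioc]
          omega
        refine le_trans (le_of_eq ?_) (single_le_sum hnn hj)
        rw [if_pos]
        refine ⟨⟨?_, h.1.2⟩, ?_, hA⟩
        · have h1 := good_take h.1.1 k
          rwa [List.take_take, min_eq_left hkk] at h1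
        · apply R.split (w.take k)
          · have h1 := h.1.1 k hi0 (by rw [List.length_take, hl]; omega)
            rwa [List.take_take, min_eq_left hkk] at h1
          · have h2 : w.take k ++ (w.take j).drop k = w.take j := by
              have e : w.take k = (w.take j).take k := by
                rw [List.take_take, min_eq_left (by omega)]
              rw [e, List.take_append_drop]
            rw [h2]
            exact hj4
      · rw [if_neg hA]
        exact sum_nonneg hnn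
    · rw [if_neg h]
      exact sum_nonneg hnn
  have hone : ∀ j ∈ Ioc k1 (k1 + n), ∑ w ∈ lw K (k1 + n),
      (if (Good R i0 (w.take k) ∧ P (w.take i0)) ∧ R.B ((w.take j).drop k) ∧ Ala x w
        then ww w else 0) ≤
        (2 * F + 11) * (3 * k + 1) * (C * ρ ^ (k1 - k)) := by
    intro j hj
    rw [mem_Ioc] at hj
    obtain ⟨a, rfl⟩ : ∃ a, j = k + a := ⟨j - k, by omega⟩
    obtain ⟨r, hr⟩ : ∃ r, k1 + n = k + (a + r) := ⟨k1 + n - (k + a), by omega⟩
    have hle := vio_one' hC hρ R (K := K) (k := k) (i := a) (r := r) hP hi0 (by omega) x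
    rw [hr, sum_lw_add]
    refine le_trans (le_of_eq ?_) (hle.trans ?_)
    · rw [GH, sum_filter]
      refine sum_congr rfl fun u hu => ?_
      rw [sum_lw_add]
      have hul := (mem_lw.1 hu).1
      have e1 : ∀ v : List ℕ, (u ++ v).take k = u := by
        intro v
        rw [← hul, List.take_left]
      have e3 : ∀ v : List ℕ, (u ++ v).take i0 = u.take i0 := by
        intro v
        rw [List.take_append_of_le_length (by omega)]
      by_cases hG : Good R i0 u ∧ P (u.take i0)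
      · rw [if_pos hG]
        refine sum_congr rfl fun v hv => sum_congr rfl fun z _ => ?_
        have hvl := (mem_lw.1 hv).1
        have e2 : ((u ++ (v ++ z)).take (k + a)).drop k = v := by
          rw [← List.append_assoc, ← hul, ← hvl, ← List.length_append, List.take_left, List.drop_left]
        rw [e1, e2, e3, ← List.append_assoc]
        by_cases hB : R.B v ∧ Ala x (u ++ v ++ z)
        · rw [if_pos hB, if_pos ⟨hG, hB⟩]
        · rw [if_neg hB, if_neg (fun h => hB h.2)]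
      · rw [if_neg hG]
        refine sum_eq_zero fun v _ => sum_eq_zero fun z _ => ?_
        rw [if_neg]
        rintro ⟨h1, _⟩
        rw [e1, e3] at h1
        exact hG h1
    · have h1 : ρ ^ a ≤ ρ ^ (k1 - k) := pow_le_pow_of_le_one hρ hρ1 (by omega)
      exact mul_le_mul_of_nonneg_left (mul_le_mul_of_nonneg_left h1 hC) (by positivity)
  rw [sum_filter]
  refine (sum_le_sum key).trans ?_
  rw [sum_comm]
  refine (sum_le_sum hone).trans (le_of_eq ?_)
  rw [sum_const, Nat.card_Ioc, nsmul_eq_mul, Nat.add_sub_cancel_left]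

end Pool.Agent.helper82.RL
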