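import Pool.Agent.helper82.RL.Cls
import Pool.Agent.helper49.PDR.Stp

/-!
# RL-Dt: the fluctuation term and one step, upper bound

As `PDR/Dta`, `Dtb`, `Stp` with the constant `2 F + 11` in place of `2 ^ i0`.
-/

namespace Pool.Agent.helper82.RL

open Finset Pool.Agent.helper14.EX1 Pool.Agent.helper49.PDR

theorem dterm_explicit' {C ρ : ℝ} (hC : 0 ≤ C) (hρ : 0 ≤ ρ) (hρ1 : ρ ≤ 1) (R : Rule C ρ)
    {i0 K k k1 n : ℕ} {P : List ℕ → Prop} {F : ℝ} (hP : Low i0 P F) (hi0 : i0 ≤ k) (hkk : k ≤ k1)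
    (h5 : 5 * (k1 + n) ≤ 6 * k) (hn : 5 * (n + 1) ≤ k1) {β : ℝ}
    (hβ : ∀ Δ : ℕ → ℤ → ℝ, Fam Δ → avg (n + 1) (fun y => |Dm K n Δ y|) ≤ β)
    {Δ : ℕ → ℤ → ℝ} (hΔ : Fam Δ) (x : ℤ) :
    |∑ u ∈ GH R i0 i0 P K (k1 + n), (if Ala x u then ww u * Δ u.sum (nd x u) else 0)| ≤
      (2 * F + 11) * (3 * k1 + 1) * β + n * ((2 * F + 11) * (3 * k + 1) * (C * ρ ^ (k1 - k))) := by
  classical
  have hF := hP.1
  have hl0 : i0 ≤ k1 := hi0.trans hkk
  set F' : List ℕ → ℝ := fun w => if Ala x w then ww w * Δ w.sum (nd x w) else 0 with hF'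
  -- the set of all extensions
  have e0 : ∑ w ∈ (lw K (k1 + n)).filter (fun w => Good R i0 (w.take k1) ∧ P (w.take i0)), F' w =
      ∑ u ∈ GH R i0 i0 P K (k1 + n), F' u +
      ∑ w ∈ (lw K (k1 + n)).filter (fun w => (Good R i0 (w.take k1) ∧ P (w.take i0)) ∧
        ¬ Good R i0 w), F' w := by
    unfold GH
    rw [← Finset.sum_filter_add_sum_filter_not ((lw K (k1 + n)).filter
      (fun w => Good R i0 (w.take k1) ∧ P (w.take i0))) (fun w => Good R i0 w)]
    rw [Finset.filter_filter, Finset.filter_filter]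
    congr 1
    refine Finset.sum_congr ?_ fun _ _ => rfl
    ext w
    simp only [Finset.mem_filter]
    constructor
    · rintro ⟨h1, ⟨h2, h3⟩, h4⟩
      exact ⟨h1, h4, h3⟩
    · rintro ⟨h1, h2, h3⟩
      exact ⟨h1, ⟨good_take h2 k1, h3⟩, h2⟩
  -- the main term
  have e1 : ∑ w ∈ (lw K (k1 + n)).filter (fun w => Good R i0 (w.take k1) ∧ P (w.take i0)), F' w =
      ∑ u ∈ GH R i0 i0 P K k1, (if Ala x u then ww u * Dm K n (fun A => Δ (u.sum + A)) (nd x u)
        else 0) := by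
    rw [Finset.sum_filter, sum_lw_add]
    unfold GH
    rw [Finset.sum_filter]
    refine Finset.sum_congr rfl fun u hu => ?_
    have hul : u.length = k1 := (mem_lw.1 hu).1
    have t1 : ∀ v : List ℕ, (u ++ v).take k1 = u := by
      intro v
      rw [← hul, List.take_left]
    have t2 : ∀ v : List ℕ, (u ++ v).take i0 = u.take i0 := by
      intro v
      rw [List.take_append_of_le_length (by omega)]
    simp only [t1, t2]
    by_cases hg : Good R i0 u ∧ P (u.take i0)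
    · simp only [if_pos hg]
      by_cases a : Ala x u
      · simp only [a, if_true]
        unfold Dm
        rw [Finset.mul_sum]
        refine Finset.sum_congr rfl fun v _ => ?_
        simp only [hF', ala_append, nd_append, ww_append, List.sum_append, a, true_and]
        split_ifs
        · ring
        · ring
      · simp only [a, if_false]
        refine Finset.sum_eq_zero fun v _ => ?_
        simp only [hF', ala_append, a, false_and, if_false]
    · simp only [if_neg hg, Finset.sum_const_zero]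
  have b1 : |∑ u ∈ GH R i0 i0 P K k1, (if Ala x u then ww u * Dm K n (fun A => Δ (u.sum + A)) (nd x u)
        else 0)| ≤ (2 * F + 11) * (3 * k1 + 1) * β := by
    calc |∑ u ∈ GH R i0 i0 P K k1, (if Ala x u then
            ww u * Dm K n (fun A => Δ (u.sum + A)) (nd x u) else 0)|
        ≤ ∑ u ∈ GH R i0 i0 P K k1, (if Ala x u then
            ww u * |Dm K n (fun A => Δ (u.sum + A)) (nd x u)| else 0) := by
          refine (Finset.abs_sum_le_sum_abs _ _).trans (Finset.sum_le_sum fun u _ => ?_)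
          split_ifs
          · rw [abs_mul, abs_of_pos (ww_pos u)]
          · simp
      _ ≤ (2 * F + 11) * ∑ A ∈ range (3 * k1 + 1), avg (n + 1)
            (fun y => |Dm K n (fun A' => Δ (A + A')) y|) :=
          cls_rec R hP hl0 hn (g := fun A y => |Dm K n (fun A' => Δ (A + A')) y|)
            (fun A => Dta_per K n (Dta_fam hΔ A)) (fun A y => abs_nonneg _) x
      _ ≤ (2 * F + 11) * ∑ A ∈ range (3 * k1 + 1), β := by
          refine mul_le_mul_of_nonneg_left (Finset.sum_le_sum fun A _ => ?_) (by positivity)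
          exact hβ _ (Dta_fam hΔ A)
      _ = (2 * F + 11) * (3 * k1 + 1) * β := by
          rw [Finset.sum_const, Finset.card_range, nsmul_eq_mul]
          push_cast
          ring
  -- the violations
  have b2 : |∑ w ∈ (lw K (k1 + n)).filter (fun w => (Good R i0 (w.take k1) ∧ P (w.take i0)) ∧
        ¬ Good R i0 w), F' w| ≤ n * ((2 * F + 11) * (3 * k + 1) * (C * ρ ^ (k1 - k))) := by
    refine le_trans ?_ (vio_ext' hC hρ hρ1 R (K := K) (n := n) hP hi0 hkk h5 x)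
    calc |∑ w ∈ (lw K (k1 + n)).filter (fun w => (Good R i0 (w.take k1) ∧ P (w.take i0)) ∧
            ¬ Good R i0 w), F' w|
        ≤ ∑ w ∈ (lw K (k1 + n)).filter (fun w => (Good R i0 (w.take k1) ∧ P (w.take i0)) ∧
            ¬ Good R i0 w), (if Ala x w then ww w else 0) := by
          refine (Finset.abs_sum_le_sum_abs _ _).trans (Finset.sum_le_sum fun w _ => ?_)
          simp only [hF']
          split_ifs
          · rw [abs_mul, abs_of_pos (ww_pos w)]
            exact mul_le_of_le_one_right (ww_pos w).le (hΔ.le _ _)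
          · simp
      _ = _ := by
          refine Finset.sum_congr ?_ fun _ _ => rfl
          ext w
          simp only [Finset.mem_filter]
  have e2 : ∑ u ∈ GH R i0 i0 P K (k1 + n), F' u =
      ∑ u ∈ GH R i0 i0 P K k1, (if Ala x u then ww u * Dm K n (fun A => Δ (u.sum + A)) (nd x u)
        else 0) - ∑ w ∈ (lw K (k1 + n)).filter (fun w => (Good R i0 (w.take k1) ∧ P (w.take i0)) ∧
        ¬ Good R i0 w), F' w := by
    rw [← e1, e0]; ring
  rw [e2]
  refine (abs_sub _ _).trans ?_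
  linarith

theorem dterm' (p : ℕ) {C ρ : ℝ} (hC : 0 ≤ C) (hρ : 0 < ρ) (hρ1 : ρ < 1) :
    ∃ D : ℝ, 0 ≤ D ∧ ∀ (R : Rule C ρ) (i0 K l : ℕ) (P : List ℕ → Prop) (F : ℝ) (Δ : ℕ → ℤ → ℝ),
      Low i0 P F → Fam Δ → ∀ x : ℤ, 100 ≤ l → 10 * i0 ≤ 9 * l →
      |∑ u ∈ GH R i0 i0 P K l, (if Ala x u then ww u * Δ u.sum (nd x u) else 0)| ≤
        (2 * F + 11) * (D / (l : ℝ) ^ p) := by
  obtain ⟨C', hC', hmix⟩ := mixing (p + 1)
  obtain ⟨D₁, hD₁, hexp⟩ := exp_poly p hρ hρ1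
  refine ⟨4 * C' * 50 ^ (p + 1) + C * D₁, by positivity, ?_⟩
  intro R i0 K l P F Δ hP hΔ x hl hi0
  have hF := hP.1
  have hlpos : (0 : ℝ) < l := by
    have : 0 < l := by omega
    exact_mod_cast this
  obtain ⟨t, ht⟩ : ∃ t, t = l / 50 := ⟨_, rfl⟩
  have hE := hexp l (by omega)
  rw [← ht] at hE
  obtain ⟨k1, hk1⟩ : ∃ k1, k1 = l - 2 * t := ⟨_, rfl⟩
  obtain ⟨k, hk⟩ : ∃ k, k = l - 4 * t := ⟨_, rfl⟩
  have hkl : k1 + 2 * t = l := by omega
  have hsub : k1 - k = 2 * t := by omega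
  have h := dterm_explicit' (K := K) (k := k) (k1 := k1) (n := 2 * t) hC hρ.le hρ1.le R hP
    (by omega) (by omega) (by omega) (by omega)
    (β := C' / (((2 * t : ℕ) : ℝ) + 1) ^ (p + 1)) (fun Δ' h' => hmix K (2 * t) Δ' h') hΔ x
  rw [hkl, hsub] at h
  refine h.trans ?_
  have ek1 : (k1 : ℝ) ≤ l := by
    have : k1 ≤ l := by omega
    exact_mod_cast this
  have ek : (k : ℝ) ≤ l := by
    have : k ≤ l := by omega
    exact_mod_cast this
  have en : ((2 * t : ℕ) : ℝ) ≤ l := by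
    have : 2 * t ≤ l := by omega
    exact_mod_cast this
  have hl1 : (1 : ℝ) ≤ l := by
    have : 1 ≤ l := by omega
    exact_mod_cast this
  have hn1 : (l : ℝ) / 50 ≤ ((2 * t : ℕ) : ℝ) + 1 := by
    rw [div_le_iff₀ (by norm_num)]
    have : l ≤ (2 * t + 1) * 50 := by omega
    exact_mod_cast this
  -- the first term
  have hβ : C' / (((2 * t : ℕ) : ℝ) + 1) ^ (p + 1) ≤ C' * 50 ^ (p + 1) / (l : ℝ) ^ (p + 1) := by
    have h3 : ((l : ℝ) / 50) ^ (p + 1) ≤ (((2 * t : ℕ) : ℝ) + 1) ^ (p + 1) :=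
      pow_le_pow_left₀ (by positivity) hn1 _
    have h4 : C' * 50 ^ (p + 1) / (l : ℝ) ^ (p + 1) = C' / ((l : ℝ) / 50) ^ (p + 1) := by
      rw [div_pow, div_div_eq_mul_div]
    rw [h4]
    exact div_le_div_of_nonneg_left hC' (by positivity) h3
  have hA : (2 * F + 11) * (3 * (k1 : ℝ) + 1) * (C' / (((2 * t : ℕ) : ℝ) + 1) ^ (p + 1)) ≤
      (2 * F + 11) * (4 * C' * 50 ^ (p + 1) / (l : ℝ) ^ p) := by
    calc (2 * F + 11) * (3 * (k1 : ℝ) + 1) * (C' / (((2 * t : ℕ) : ℝ) + 1) ^ (p + 1))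
        ≤ (2 * F + 11) * (4 * (l : ℝ)) * (C' * 50 ^ (p + 1) / (l : ℝ) ^ (p + 1)) := by
          gcongr
          linarith
      _ = (2 * F + 11) * (4 * C' * 50 ^ (p + 1) / (l : ℝ) ^ p) := by
          rw [pow_succ (l : ℝ) p]
          field_simp
  -- the second term
  have hB : ((2 * t : ℕ) : ℝ) * ((2 * F + 11) * (3 * (k : ℝ) + 1) * (C * ρ ^ (2 * t))) ≤
      (2 * F + 11) * (C * D₁ / (l : ℝ) ^ p) := by
    have hr : 0 ≤ ρ ^ (2 * t) := by positivity
    calc ((2 * t : ℕ) : ℝ) * ((2 * F + 11) * (3 * (k : ℝ) + 1) * (C * ρ ^ (2 * t)))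
        ≤ (l : ℝ) * ((2 * F + 11) * (3 * (l : ℝ) + 1) * (C * ρ ^ (2 * t))) := by gcongr
      _ = (2 * F + 11) * (C * ((l : ℝ) * (3 * l + 1) * ρ ^ (2 * t))) := by ring
      _ ≤ (2 * F + 11) * (C * (D₁ / (l : ℝ) ^ p)) := by gcongr
      _ = (2 * F + 11) * (C * D₁ / (l : ℝ) ^ p) := by ring
  calc _ ≤ (2 * F + 11) * (4 * C' * 50 ^ (p + 1) / (l : ℝ) ^ p) +
        (2 * F + 11) * (C * D₁ / (l : ℝ) ^ p) := add_le_add hA hB
    _ = (2 * F + 11) * ((4 * C' * 50 ^ (p + 1) + C * D₁) / (l : ℝ) ^ p) := by ring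

theorem step_up (p : ℕ) {C ρ : ℝ} (hC : 0 ≤ C) (hρ : 0 < ρ) (hρ1 : ρ < 1) :
    ∃ D : ℝ, 0 ≤ D ∧ ∀ (R : Rule C ρ) (i0 K l : ℕ) (P : List ℕ → Prop) (F : ℝ) (h : ℕ → ℝ),
      Low i0 P F → (∀ A, 0 ≤ h A) → (∀ A, h A ≤ 1) → ∀ x : ℤ, 100 ≤ l → 10 * i0 ≤ 9 * l →
      ∑ w ∈ GH R i0 i0 P K (l + 1), (if Ala x w then ww w * h w.sum else 0) ≤
        ∑ u ∈ GH R i0 i0 P K l, (if Ala x u then ww u * nx K h u.sum else 0) +
          (2 * F + 11) * (D / (l : ℝ) ^ p) := by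
  classical
  obtain ⟨D1, hD1, H1⟩ := dterm' p hC hρ hρ1
  refine ⟨2 * D1, by positivity, ?_⟩
  intro R i0 K l P F h hP h0 h1 x hl hi
  have hl1 : i0 ≤ l := by omega
  have e1 := step_one R (i0 := i0) (l0 := i0) (K := K) (l := l) P hl1 h x
  rw [e1]
  have e2 : ∑ u ∈ GH R i0 i0 P K l,
      (if Ala x u then ww u * (nx K h u.sum + 2 * Del K h u.sum (nd x u)) else 0) =
      ∑ u ∈ GH R i0 i0 P K l, (if Ala x u then ww u * nx K h u.sum else 0) +
      2 * ∑ u ∈ GH R i0 i0 P K l, (if Ala x u then ww u * Del K h u.sum (nd x u) else 0) := by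
    rw [mul_sum, ← sum_add_distrib]
    refine sum_congr rfl fun u _ => ?_
    split_ifs
    · ring
    · ring
  rw [e2]
  have e3 := (abs_le.1 (H1 R i0 K l P F (Del K h) hP (del_fam K h0 h1) x hl hi)).2
  have e4 : 0 ≤ ∑ w ∈ (lw K (l + 1)).filter
          (fun w => (Good R i0 (w.take l) ∧ P (w.take i0)) ∧ ¬ Good R i0 w),
        (if Ala x w then ww w * h w.sum else 0) := by
    refine sum_nonneg fun w _ => ?_
    split_ifs
    · exact mul_nonneg (ww_pos w).le (h0 _)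
    · exact le_rfl
  have e5 : (2 * F + 11) * (2 * D1 / (l : ℝ) ^ p) = 2 * ((2 * F + 11) * (D1 / (l : ℝ) ^ p)) := by
    ring
  rw [e5]
  linarith

end Pool.Agent.helper82.RL
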