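import Pool.Agent.helper82.RL.Main

/-!
# RL in the form used by the pointwise bound
-/

namespace Pool.Agent.helper82.RL

open Finset Pool.Agent.helper14.EX1 Pool.Agent.helper49.PDR

open Classical in
theorem rlst : ∃ C : ℝ, 0 < C ∧ ∀ (i0 K r : ℕ) (M X : ℝ) (x : ℤ), 1 ≤ M → 0 < X →
    ∑ l ∈ range (r + 1), ∑ v ∈ lw K l,
      (if (∀ i, i0 ≤ i → i ≤ l → 39 * i ≤ 20 * (v.take i).sum ∧ 20 * (v.take i).sum ≤ 41 * i) ∧
          (∀ j, j ≤ l → (3 : ℝ) ^ j ≤ M * 2 ^ ((v.take j).sum)) ∧ Ala x v ∧ strip X l v.sum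
        then ww v else 0) ≤ C * M * ((i0 : ℝ) + 1) ^ 2 := by
  obtain ⟨C, hC, h⟩ := rl
  refine ⟨C + 1, by linarith, fun i0 K r M X x hM hX => ?_⟩
  have h1 := h i0 K r M X x hM hX
  have h2 : ∑ l ∈ range (r + 1), ∑ v ∈ lw K l,
      (if (∀ i, i0 ≤ i → i ≤ l → 39 * i ≤ 20 * (v.take i).sum ∧ 20 * (v.take i).sum ≤ 41 * i) ∧
          (∀ j, j ≤ l → (3 : ℝ) ^ j ≤ M * 2 ^ ((v.take j).sum)) ∧ Ala x v ∧ strip X l v.sum
        then ww v else 0) = ∑ l ∈ range (r+1), ∑ v ∈ lw K l,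
          (if Gdw i0 v ∧ Nlo M v ∧ Ala x v ∧ strip X l v.sum then ww v else 0) := by
    refine sum_congr rfl fun l _ => sum_congr rfl fun v hv => ?_
    have hl : v.length = l := by
      rw [mem_lw] at hv
      exact hv.1
    refine if_congr ?_ rfl rfl
    unfold Gdw Nlo
    rw [hl]
  rw [h2]
  have h3 : 0 ≤ M * ((i0 : ℝ) + 1) ^ 2 := by
    have : 0 ≤ M := by linarith
    positivity
  nlinarith

end Pool.Agent.helper82.RL
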