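import Pool.Agent.helper82.RL.Dt
import Pool.Agent.helper49.PDR.Tel

/-!
# RL-Tel: telescoping, upper bound
-/

namespace Pool.Agent.helper82.RL

open Finset Pool.Agent.helper14.EX1 Pool.Agent.helper49.PDR

theorem Tel_scaleU {C ρ B M : ℝ} (hM : 1 ≤ M) {R : Rule C ρ} {i0 K l : ℕ} {P : List ℕ → Prop}
    (hs : ∀ h : ℕ → ℝ, (∀ A, 0 ≤ h A) → (∀ A, h A ≤ 1) → ∀ x : ℤ,
      ∑ w ∈ GH R i0 i0 P K (l + 1), (if Ala x w then ww w * h w.sum else 0) ≤
        ∑ u ∈ GH R i0 i0 P K l, (if Ala x u then ww u * nx K h u.sum else 0) + B)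
    (h : ℕ → ℝ) (hh0 : ∀ A, 0 ≤ h A) (hh1 : ∀ A, h A ≤ M) (x : ℤ) :
    ∑ w ∈ GH R i0 i0 P K (l + 1), (if Ala x w then ww w * h w.sum else 0) ≤
      ∑ u ∈ GH R i0 i0 P K l, (if Ala x u then ww u * nx K h u.sum else 0) + M * B := by
  have hM0 : 0 < M := by linarith
  have h1 := hs (fun A => M⁻¹ * h A) (fun A => mul_nonneg (inv_nonneg.2 hM0.le) (hh0 A))
    (fun A => by
      rw [inv_mul_le_iff₀ hM0, mul_one]
      exact hh1 A) x
  have h2 := mul_le_mul_of_nonneg_left h1 hM0.le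
  rw [mul_add, mul_sum, mul_sum] at h2
  have e1 : ∑ u ∈ GH R i0 i0 P K l, (if Ala x u then ww u * nx K h u.sum else 0) =
      ∑ u ∈ GH R i0 i0 P K l,
        M * (if Ala x u then ww u * nx K (fun A => M⁻¹ * h A) u.sum else 0) := by
    refine sum_congr rfl fun u _ => ?_
    split_ifs
    · have e2 : nx K (fun A => M⁻¹ * h A) u.sum = M⁻¹ * nx K h u.sum := by
        unfold nx
        rw [mul_sum]
        exact sum_congr rfl fun k _ => by ring
      rw [e2]
      field_simp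
    · ring
  have e3 : ∑ w ∈ GH R i0 i0 P K (l + 1), (if Ala x w then ww w * h w.sum else 0) =
      ∑ w ∈ GH R i0 i0 P K (l + 1), M * (if Ala x w then ww w * (M⁻¹ * h w.sum) else 0) := by
    refine sum_congr rfl fun w _ => ?_
    split_ifs
    · field_simp
    · ring
  rw [e1, e3]
  exact h2

open Classical in
theorem tel_vis {C ρ : ℝ} (hC : 0 ≤ C) (hρ : 0 < ρ) (hρ1 : ρ < 1) :
    ∃ E : ℝ, 0 ≤ E ∧ ∀ (R : Rule C ρ) (i0 K : ℕ) (P : List ℕ → Prop) (F X : ℝ) (x : ℤ),
      Low i0 P F → 0 < X → ∀ r l : ℕ, 100 ≤ l → 10 * i0 ≤ 9 * l →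
      ∑ j ∈ range (r + 1), ∑ v ∈ GH R i0 i0 P K (l + j),
          (if Ala x v ∧ strip X (l + j) v.sum then ww v else 0) ≤
        ∑ u ∈ GH R i0 i0 P K l, (if Ala x u then ww u * vis K X r l u.sum else 0) +
          (2 * F + 11) * (E * (2 / l)) := by
  obtain ⟨D, hD, hstep⟩ := step_up 2 hC hρ hρ1
  obtain ⟨M, hM, hvis⟩ := vis_le
  have hM0 : 0 ≤ M := by linarith
  refine ⟨M * D, by positivity, ?_⟩
  intro R i0 K P F X x hP hX r
  have hF := hP.1
  induction r with
  | zero =>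
    intro l hl hi
    have hl0 : (0:ℝ) < l := by
      have : 0 < l := by omega
      exact_mod_cast this
    have h1 : (0:ℝ) ≤ (2 * F + 11) * (M * D * (2 / l)) := by positivity
    rw [zero_add, sum_range_one]
    have h2 : ∑ u ∈ GH R i0 i0 P K l, (if Ala x u then ww u * vis K X 0 l u.sum else 0) =
        ∑ v ∈ GH R i0 i0 P K (l + 0), (if Ala x v ∧ strip X (l + 0) v.sum then ww v else 0) := by
      rw [add_zero]
      refine sum_congr rfl fun u _ => ?_
      unfold vis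
      by_cases a1 : Ala x u
      · by_cases a2 : strip X l u.sum
        · simp [a1, a2]
        · simp [a1, a2]
      · simp [a1]
    linarith
  | succ r ih =>
    intro l hl hi
    have hl1 : 1 ≤ l := by omega
    have hl0 : (0:ℝ) < l := by exact_mod_cast hl1
    have h1 := ih (l + 1) (by omega) (by omega)
    have h2 := Tel_scaleU (R := R) (i0 := i0) (K := K) (l := l) (P := P)
      (B := (2 * F + 11) * (D / (l : ℝ) ^ 2)) hM
      (fun h a b y => hstep R i0 K l P F h hP a b y (by omega) (by omega))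
      (fun A => vis K X r (l + 1) A) (fun A => vis_nn K X r (l + 1) A)
      (fun A => hvis K X r (l + 1) A hX) x
    have h3 : ∑ u ∈ GH R i0 i0 P K l, (if Ala x u then ww u * vis K X (r + 1) l u.sum else 0) =
        ∑ v ∈ GH R i0 i0 P K (l + 0), (if Ala x v ∧ strip X (l + 0) v.sum then ww v else 0) +
        ∑ u ∈ GH R i0 i0 P K l,
          (if Ala x u then ww u * nx K (fun A => vis K X r (l + 1) A) u.sum else 0) := by
      rw [add_zero, ← sum_add_distrib]
      refine sum_congr rfl fun u _ => ?_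
      have e : vis K X (r + 1) l u.sum = (if strip X l u.sum then 1 else 0) +
          nx K (fun A => vis K X r (l + 1) A) u.sum := rfl
      rw [e]
      by_cases a1 : Ala x u
      · by_cases a2 : strip X l u.sum
        · simp [a1, a2, mul_add]
        · simp [a1, a2]
      · simp [a1]
    have h4 : ∑ j ∈ range (r + 1 + 1), ∑ v ∈ GH R i0 i0 P K (l + j),
          (if Ala x v ∧ strip X (l + j) v.sum then ww v else 0) =
        ∑ j ∈ range (r + 1), ∑ v ∈ GH R i0 i0 P K (l + 1 + j),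
          (if Ala x v ∧ strip X (l + 1 + j) v.sum then ww v else 0) +
        ∑ v ∈ GH R i0 i0 P K (l + 0), (if Ala x v ∧ strip X (l + 0) v.sum then ww v else 0) := by
      rw [sum_range_succ']
      congr 1
      refine sum_congr rfl fun j _ => ?_
      have e : l + (j + 1) = l + 1 + j := by ring
      rw [e]
    have h5 : M * ((2 * F + 11) * (D / (l : ℝ) ^ 2)) +
        (2 * F + 11) * (M * D * (2 / ((l + 1 : ℕ) : ℝ))) ≤ (2 * F + 11) * (M * D * (2 / l)) := by
      have e : M * ((2 * F + 11) * (D / (l : ℝ) ^ 2)) +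
        (2 * F + 11) * (M * D * (2 / ((l + 1 : ℕ) : ℝ))) =
        (2 * F + 11) * (M * D * (1 / (l : ℝ) ^ 2 + 2 / ((l + 1 : ℕ) : ℝ))) := by
        ring
      rw [e]
      have h6 : 1 / (l : ℝ) ^ 2 + 2 / ((l + 1 : ℕ) : ℝ) ≤ 2 / l := by
        push_cast
        exact Tel_inv (by exact_mod_cast hl1)
      gcongr
    rw [h3, h4]
    linarith

open Classical in
theorem tel_up {C ρ : ℝ} (hC : 0 ≤ C) (hρ : 0 < ρ) (hρ1 : ρ < 1) :
    ∃ D : ℝ, 0 ≤ D ∧ ∀ (R : Rule C ρ) (i0 K : ℕ) (P : List ℕ → Prop) (F X : ℝ) (x : ℤ),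
      Low i0 P F → 0 < X → ∀ r l : ℕ, 100 ≤ l → 10 * i0 ≤ 9 * l →
      ∑ j ∈ range (r + 1), ∑ v ∈ GH R i0 i0 P K (l + j),
          (if Ala x v ∧ strip X (l + j) v.sum then ww v else 0) ≤
        (2 * F + 11) * (D * (l + 1)) := by
  obtain ⟨E, hE, H⟩ := tel_vis hC hρ hρ1
  obtain ⟨M, hM, hvis⟩ := vis_le
  have hM0 : 0 ≤ M := by linarith
  refine ⟨3 * M + 2 * E, by positivity, ?_⟩
  intro R i0 K P F X x hP hX r l hl hi
  have hF := hP.1
  refine (H R i0 K P F X x hP hX r l hl hi).trans ?_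
  have hl1 : (1 : ℝ) ≤ l := by
    have : 1 ≤ l := by omega
    exact_mod_cast this
  have h1 : ∑ u ∈ GH R i0 i0 P K l, (if Ala x u then ww u * vis K X r l u.sum else 0) ≤
      ∑ u ∈ GH R i0 i0 P K l, M * (if Ala x u then ww u * (fun _ _ => (1 : ℝ)) u.sum (nd x u) else 0) := by
    refine sum_le_sum fun u _ => ?_
    split_ifs
    · have := mul_le_mul_of_nonneg_left (hvis K X r l u.sum hX) (ww_pos u).le
      linarith
    · simp
  rw [← mul_sum] at h1
  have h2 := cls_rec R (K := K) (k := l) (m := 0) hP (by omega) (by omega)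
    (g := fun _ _ => (1 : ℝ)) (fun _ => per_const 0 1) (fun _ _ => zero_le_one) x
  have h3 : ∑ A ∈ range (3 * l + 1), avg 0 (fun _ : ℤ => (1 : ℝ)) = 3 * l + 1 := by
    simp [avg]
  rw [h3] at h2
  have h4 := mul_le_mul_of_nonneg_left h2 hM0
  have h5 : (2 : ℝ) / l ≤ 2 := by
    rw [div_le_iff₀ (by linarith)]
    linarith
  have h6 : (2 * F + 11) * (E * (2 / (l : ℝ))) ≤ (2 * F + 11) * (2 * E * (l + 1)) := by
    have h7 : E * (2 / (l : ℝ)) ≤ 2 * E * (l + 1) := by
      have h8 := mul_le_mul_of_nonneg_left h5 hE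
      have h9 : 0 ≤ 2 * E * (l : ℝ) := by positivity
      linarith
    exact mul_le_mul_of_nonneg_left h7 (by positivity)
  have h7 : M * ((2 * F + 11) * (3 * (l : ℝ) + 1)) ≤ (2 * F + 11) * (3 * M * (l + 1)) := by
    have h8 : M * ((2 * F + 11) * (3 * (l : ℝ) + 1)) = (2 * F + 11) * (M * (3 * l + 1)) := by ring
    rw [h8]
    refine mul_le_mul_of_nonneg_left ?_ (by positivity)
    nlinarith
  have h8 : (2 * F + 11) * ((3 * M + 2 * E) * ((l : ℝ) + 1)) =
      (2 * F + 11) * (3 * M * (l + 1)) + (2 * F + 11) * (2 * E * (l + 1)) := by ring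
  rw [h8]
  linarith

end Pool.Agent.helper82.RL
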